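import Pool.Agent.Q14.FE.CEX

/-!
Project FE (helper78), job FE-BINT: integration of the blocks.
-/

set_option autoImplicit false
set_option linter.unusedVariables false

namespace Pool.Agent.Q14.FE

open Finset H974 Q78.FE

theorem ei_add (a b : ℝ) : ei (a + b) = ei a * ei b := by
  unfold ei
  rw [Complex.ofReal_add, add_mul, Complex.exp_add]

theorem norm_ei (t : ℝ) : ‖ei t‖ = 1 := by
  unfold ei
  exact Complex.norm_exp_ofReal_mul_I t

theorem t_BINT : S_BINT := by
  intro E ι _ _ p hp U J B hBU hdis g X y A _ h θ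
  set φ : ι → Finset E → ℂ := fun i F => CEx p (B i) (fun G => ei (θ * y i ((F \ B i) ∪ G))) with hφ
  set Φ : Finset ι → Finset E → ℂ := fun K F =>
    (g F : ℂ) * ei (θ * (X F - ∑ i ∈ K, if A i F then y i F else 0)) *
      ∏ i ∈ K, (if A i F then φ i F else 1) with hΦ
  have step : ∀ K : Finset ι, K ⊆ J → CEx p U (Φ K) = CEx p U (Φ ∅) := by
    intro K
    induction K using Finset.induction_on with
    | empty => intro _; rfl
    | insert k K hk ih =>
      intro hKJ
      rw [← ih (fun x hx => hKJ (Finset.mem_insert_of_mem hx))]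
      have hkJ : k ∈ J := hKJ (Finset.mem_insert_self k K)
      have hKJ' : ∀ j ∈ K, j ∈ J ∧ j ≠ k := fun j hj =>
        ⟨hKJ (Finset.mem_insert_of_mem hj), fun e => hk (e ▸ hj)⟩
      have hU : (U \ B k) ∪ B k = U := Finset.sdiff_union_of_subset (hBU k hkJ)
      have hd : Disjoint (U \ B k) (B k) := Finset.sdiff_disjoint
      rw [← hU, cex_union p hd, cex_union p hd]
      refine cex_congr fun F1 hF1 => ?_
      have hF1k : ∀ G, G ⊆ B k → (F1 ∪ G) \ B k = F1 := by
        intro G hG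
        ext x
        simp only [Finset.mem_sdiff, Finset.mem_union]
        constructor
        · rintro ⟨h1 | h1, h2⟩
          · exact h1
          · exact absurd (hG h1) h2
        · intro h1
          exact ⟨Or.inl h1, (Finset.mem_sdiff.1 (hF1 h1)).2⟩
      have hUG : ∀ G, G ⊆ B k → F1 ∪ G ⊆ U := fun G hG =>
        Finset.union_subset (hF1.trans Finset.sdiff_subset) (hG.trans (hBU k hkJ))
      by_cases hA : ∃ G0, G0 ⊆ B k ∧ A k (F1 ∪ G0)
      · obtain ⟨G0, hG0, hA0⟩ := hA
        have key := fun G (hG : G ⊆ B k) => h k hkJ (F1 ∪ G0) (F1 ∪ G) (hUG G0 hG0) (hUG G hG)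
          (by rw [hF1k G0 hG0, hF1k G hG]) hA0
        -- the constant part
        set s0 : ℝ := ∑ i ∈ K, (if A i (F1 ∪ G0) then y i (F1 ∪ G0) else 0) with hs0
        set P0 : ℂ := ∏ i ∈ K, (if A i (F1 ∪ G0) then φ i (F1 ∪ G0) else 1) with hP0
        set c0 : ℝ := X (F1 ∪ G0) - y k (F1 ∪ G0) with hc0
        have hs : ∀ G, G ⊆ B k → ∑ i ∈ K, (if A i (F1 ∪ G) then y i (F1 ∪ G) else 0) = s0 := by
          intro G hG
          refine Finset.sum_congr rfl fun i hi => ?_
          obtain ⟨hiJ, hik⟩ := hKJ' i hi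
          obtain ⟨e1, e2, e3⟩ := (key G hG).2.2.2 i hiJ hik
          by_cases hAi : A i (F1 ∪ G0)
          · rw [if_pos hAi, if_pos (e1.2 hAi), e2]
          · rw [if_neg hAi, if_neg (fun h' => hAi (e1.1 h'))]
        have hP : ∀ G, G ⊆ B k → ∏ i ∈ K, (if A i (F1 ∪ G) then φ i (F1 ∪ G) else 1) = P0 := by
          intro G hG
          refine Finset.prod_congr rfl fun i hi => ?_
          obtain ⟨hiJ, hik⟩ := hKJ' i hi
          obtain ⟨e1, e2, e3⟩ := (key G hG).2.2.2 i hiJ hik
          have e4 : φ i (F1 ∪ G) = φ i (F1 ∪ G0) := by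
            rw [hφ]
            refine cex_congr fun G' hG' => ?_
            rw [e3 G' hG']
          by_cases hAi : A i (F1 ∪ G0)
          · rw [if_pos hAi, if_pos (e1.2 hAi), e4]
          · rw [if_neg hAi, if_neg (fun h' => hAi (e1.1 h'))]
        set C0 : ℂ := (g (F1 ∪ G0) : ℂ) * ei (θ * (c0 - s0)) * P0 with hC0
        have e1 : ∀ G, G ⊆ B k → Φ K (F1 ∪ G) = C0 * ei (θ * y k (F1 ∪ G)) := by
          intro G hG
          obtain ⟨a1, a2, a3, a4⟩ := key G hG
          have hX : X (F1 ∪ G) = c0 + y k (F1 ∪ G) := by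
            rw [hc0]
            linarith
          rw [hΦ]
          show (g (F1 ∪ G) : ℂ) * ei (θ * (X (F1 ∪ G) -
            ∑ i ∈ K, if A i (F1 ∪ G) then y i (F1 ∪ G) else 0)) *
            ∏ i ∈ K, (if A i (F1 ∪ G) then φ i (F1 ∪ G) else 1) = _
          rw [hs G hG, hP G hG, a2, hX]
          have e : θ * (c0 + y k (F1 ∪ G) - s0) = θ * (c0 - s0) + θ * y k (F1 ∪ G) := by ring
          rw [e, ei_add, hC0]
          ring
        have e2 : ∀ G, G ⊆ B k → Φ (insert k K) (F1 ∪ G) =
            C0 * CEx p (B k) (fun G' => ei (θ * y k (F1 ∪ G'))) := by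
          intro G hG
          obtain ⟨a1, a2, a3, a4⟩ := key G hG
          have hX : X (F1 ∪ G) = c0 + y k (F1 ∪ G) := by
            rw [hc0]
            linarith
          rw [hΦ]
          show (g (F1 ∪ G) : ℂ) * ei (θ * (X (F1 ∪ G) -
            ∑ i ∈ insert k K, if A i (F1 ∪ G) then y i (F1 ∪ G) else 0)) *
            ∏ i ∈ insert k K, (if A i (F1 ∪ G) then φ i (F1 ∪ G) else 1) = _
          rw [Finset.sum_insert hk, Finset.prod_insert hk, hs G hG, hP G hG, a2, hX, if_pos a1,
            if_pos a1]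
          have e : θ * (c0 + y k (F1 ∪ G) - (y k (F1 ∪ G) + s0)) = θ * (c0 - s0) := by ring
          have e' : φ k (F1 ∪ G) = CEx p (B k) (fun G' => ei (θ * y k (F1 ∪ G'))) := by
            rw [hφ]
            simp only [hF1k G hG]
          rw [e, e', hC0]
          ring
        rw [cex_congr e2, cex_congr e1, cex_const, ← cex_mul]
      · push Not at hA
        refine cex_congr fun G hG => ?_
        rw [hΦ]
        show (g (F1 ∪ G) : ℂ) * ei (θ * (X (F1 ∪ G) -
            ∑ i ∈ insert k K, if A i (F1 ∪ G) then y i (F1 ∪ G) else 0)) *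
            ∏ i ∈ insert k K, (if A i (F1 ∪ G) then φ i (F1 ∪ G) else 1) =
          (g (F1 ∪ G) : ℂ) * ei (θ * (X (F1 ∪ G) -
            ∑ i ∈ K, if A i (F1 ∪ G) then y i (F1 ∪ G) else 0)) *
            ∏ i ∈ K, (if A i (F1 ∪ G) then φ i (F1 ∪ G) else 1)
        rw [Finset.sum_insert hk, Finset.prod_insert hk, if_neg (hA G hG), if_neg (hA G hG),
          zero_add, one_mul]
  have h0 : ∀ F, F ⊆ U → Φ ∅ F = (g F : ℂ) * ei (θ * X F) := by
    intro F _
    rw [hΦ]
    show (g F : ℂ) * ei (θ * (X F - ∑ i ∈ (∅ : Finset ι), if A i F then y i F else 0)) *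
      ∏ i ∈ (∅ : Finset ι), (if A i F then φ i F else 1) = _
    rw [Finset.sum_empty, Finset.prod_empty, sub_zero, mul_one]
  rw [← cex_congr h0, ← step J (Finset.Subset.refl J)]
  refine (cex_norm hp U _).trans (le_of_eq ?_)
  refine Ex_congr fun F _ => ?_
  rw [hΦ]
  show ‖(g F : ℂ) * ei (θ * (X F - ∑ i ∈ J, if A i F then y i F else 0)) *
      ∏ i ∈ J, (if A i F then φ i F else 1)‖ = _
  rw [norm_mul, norm_mul, norm_ei, mul_one, Complex.norm_real, Real.norm_eq_abs, norm_prod]
  congr 1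
  refine Finset.prod_congr rfl fun i _ => ?_
  split_ifs with hA
  · rfl
  · exact norm_one

end Pool.Agent.Q14.FE
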