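import Pool.Agent.Q78.FE.Stm

/-!
Project FE (helper78), job FE-CEX: elementary properties of the complex expectation.
-/

set_option autoImplicit false
set_option linter.unusedVariables false

namespace Pool.Agent.Q14.FE

open Finset H974 Q78.FE

section
variable {E : Type*} [DecidableEq E]

theorem cex_eq (p : E → ℝ) (S : Finset E) (f : Finset E → ℂ) :
    CEx p S f = (Ex p S (fun F => (f F).re) : ℂ) + (Ex p S (fun F => (f F).im) : ℂ) * Complex.I := by
  unfold CEx Ex
  rw [Complex.ofReal_sum, Complex.ofReal_sum, Finset.sum_mul, ← Finset.sum_add_distrib]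
  refine Finset.sum_congr rfl fun F _ => ?_
  generalize (∏ e ∈ F, p e) * ∏ e ∈ S \ F, (1 - p e) = w
  simp only [Complex.ofReal_mul]
  conv_lhs => rw [← Complex.re_add_im (f F)]
  ring

theorem cex_re (p : E → ℝ) (S : Finset E) (f : Finset E → ℂ) :
    (CEx p S f).re = Ex p S (fun F => (f F).re) := by
  rw [cex_eq]
  simp

theorem cex_im (p : E → ℝ) (S : Finset E) (f : Finset E → ℂ) :
    (CEx p S f).im = Ex p S (fun F => (f F).im) := by
  rw [cex_eq]
  simp

theorem cex_norm {p : E → ℝ} (hp : Ok p) (S : Finset E) (f : Finset E → ℂ) :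
    ‖CEx p S f‖ ≤ Ex p S (fun F => ‖f F‖) := by
  unfold CEx Ex
  refine (norm_sum_le _ _).trans (le_of_eq ?_)
  refine Finset.sum_congr rfl fun F _ => ?_
  rw [norm_mul, Complex.norm_real, Real.norm_of_nonneg]
  apply mul_nonneg
  · exact Finset.prod_nonneg (fun e _ => (hp e).1)
  · exact Finset.prod_nonneg (fun e _ => by linarith [(hp e).2])

theorem cex_congr {p : E → ℝ} {S : Finset E} {f g : Finset E → ℂ}
    (h : ∀ F, F ⊆ S → f F = g F) : CEx p S f = CEx p S g := by
  unfold CEx
  refine Finset.sum_congr rfl fun F hF => ?_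
  rw [h F (Finset.mem_powerset.mp hF)]

theorem cex_union (p : E → ℝ) {S T : Finset E} (hd : Disjoint S T) (f : Finset E → ℂ) :
    CEx p (S ∪ T) f = CEx p S (fun A => CEx p T (fun B => f (A ∪ B))) := by
  apply Complex.ext
  · rw [cex_re, cex_re, Ex_union hd]
    simp only [cex_re]
  · rw [cex_im, cex_im, Ex_union hd]
    simp only [cex_im]

theorem cex_mul (p : E → ℝ) (S : Finset E) (c : ℂ) (f : Finset E → ℂ) :
    CEx p S (fun F => c * f F) = c * CEx p S f := by
  unfold CEx
  rw [Finset.mul_sum]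
  refine Finset.sum_congr rfl fun F _ => ?_
  ring

theorem cex_const (p : E → ℝ) (S : Finset E) (c : ℂ) : CEx p S (fun _ => c) = c := by
  apply Complex.ext
  · rw [cex_re, Ex_const]
  · rw [cex_im, Ex_const]

theorem cex_real (p : E → ℝ) (S : Finset E) (f : Finset E → ℝ) :
    CEx p S (fun F => (f F : ℂ)) = (Ex p S f : ℂ) := by
  apply Complex.ext
  · rw [cex_re, Complex.ofReal_re]
    simp only [Complex.ofReal_re]
  · rw [cex_im, Complex.ofReal_im]
    simp only [Complex.ofReal_im]
    exact Ex_const p S 0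

theorem cex_add (p : E → ℝ) (S : Finset E) (f g : Finset E → ℂ) :
    CEx p S (fun F => f F + g F) = CEx p S f + CEx p S g := by
  unfold CEx
  rw [← Finset.sum_add_distrib]
  refine Finset.sum_congr rfl fun F _ => ?_
  ring

theorem cex_local (p : E → ℝ) {S S' : Finset E} (hS : S' ⊆ S) {f : Finset E → ℂ}
    (hf : ∀ F, F ⊆ S → f F = f (F ∩ S')) : CEx p S f = CEx p S' f := by
  apply Complex.ext
  · rw [cex_re, cex_re]
    exact Ex_local hS fun F hF => by rw [← hf F hF]
  · rw [cex_im, cex_im]
    exact Ex_local hS fun F hF => by rw [← hf F hF]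

end

theorem t_CEX : S_CEX := fun {E} _ p S =>
  ⟨fun hp f => cex_norm hp S f, fun f g h => cex_congr h, fun T hd f => cex_union p hd f,
    cex_mul p S, cex_const p S, cex_real p S, cex_add p S, fun S' hS f hf => cex_local p hS hf⟩

end Pool.Agent.Q14.FE
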