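import Pool.Agent.Q14.FE.BINT

/-!
Project FE (helper78), job FE-GAP: a gap for a characteristic function.
-/

set_option autoImplicit false
set_option linter.unusedVariables false

namespace Pool.Agent.Q14.FE

open Finset H974 Q78.FE

theorem one_sub_cos_ge {t : ℝ} (h : |t| ≤ 1) : 11 / 24 * t ^ 2 ≤ 1 - Real.cos t := by
  wlog ht : 0 ≤ t with H
  · have := H (t := -t) (by rwa [abs_neg]) (by linarith)
    rw [Real.cos_neg] at this
    nlinarith
  rw [abs_of_nonneg ht] at h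
  rcases ht.eq_or_lt with h0 | h0
  · rw [← h0]; simp
  have h1 := Real.sin_gt_sub_cube (x := t / 2) (by linarith)
  have h2 : Real.cos t = 1 - 2 * Real.sin (t / 2) ^ 2 := by
    have h3 := Real.cos_two_mul (t / 2)
    have h4 := Real.sin_sq_add_cos_sq (t / 2)
    rw [show 2 * (t / 2) = t by ring] at h3
    rw [h3]; linarith
  rw [h2]
  set s := Real.sin (t / 2)
  have h5 : t / 2 * (1 - t ^ 2 / 24) < s := by
    calc t / 2 * (1 - t ^ 2 / 24) = t / 2 - (t / 2) ^ 3 / 6 := by ring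
      _ < s := h1
  have ht2 : t ^ 2 ≤ 1 := by nlinarith
  have h6 : 0 ≤ t / 2 * (1 - t ^ 2 / 24) := by
    apply mul_nonneg (by linarith); linarith
  have h7 : (t / 2 * (1 - t ^ 2 / 24)) ^ 2 ≤ s ^ 2 := by
    apply pow_le_pow_left₀ h6 h5.le
  have h8 : 11 / 48 * t ^ 2 ≤ (t / 2 * (1 - t ^ 2 / 24)) ^ 2 := by
    have : (t / 2 * (1 - t ^ 2 / 24)) ^ 2 = t ^ 2 * ((1 - t ^ 2 / 24) ^ 2 / 4) := by ring
    rw [this]
    have h9 : 11 / 48 ≤ (1 - t ^ 2 / 24) ^ 2 / 4 := by nlinarith [sq_nonneg (t ^ 2)]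
    nlinarith [sq_nonneg t]
  linarith

section
variable {E : Type*} [DecidableEq E]

theorem normsq_cex (p : E → ℝ) (B : Finset E) (Z : Finset E → ℝ) :
    ‖CEx p B (fun F => ei (Z F))‖ ^ 2 =
      Ex p B (fun F => Ex p B (fun G => Real.cos (Z F - Z G))) := by
  have hre : ∀ x : ℝ, (ei x).re = Real.cos x := by
    intro x; unfold ei; exact Complex.exp_ofReal_mul_I_re x
  have him : ∀ x : ℝ, (ei x).im = Real.sin x := by
    intro x; unfold ei; exact Complex.exp_ofReal_mul_I_im x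
  rw [← Complex.normSq_eq_norm_sq, Complex.normSq_apply, cex_re, cex_im]
  simp only [hre, him, Real.cos_sub]
  have h1 : ∀ F, Ex p B (fun G => Real.cos (Z F) * Real.cos (Z G) + Real.sin (Z F) * Real.sin (Z G))
      = Real.cos (Z F) * Ex p B (fun G => Real.cos (Z G)) +
        Real.sin (Z F) * Ex p B (fun G => Real.sin (Z G)) := by
    intro F
    rw [Ex_add, Ex_mul_left, Ex_mul_left]
  simp only [h1]
  rw [Ex_add, Ex_mul_right, Ex_mul_right]

theorem norm_cex_ei_le {p : E → ℝ} (hp : Ok p) (B : Finset E) (Z : Finset E → ℝ) :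
    ‖CEx p B (fun F => ei (Z F))‖ ≤ 1 := by
  refine (cex_norm hp B _).trans (le_of_eq ?_)
  simp only [norm_ei]
  exact Ex_const p B 1

/-- The median. -/
theorem exists_median {p : E → ℝ} (hp : Ok p) (B : Finset E) (Y : Finset E → ℝ)
    (Q : Finset E → Prop) : ∃ s : ℝ, Pr p B Q / 2 ≤ Pr p B (fun F => Q F ∧ Y F ≤ s) ∧
      Pr p B Q / 2 ≤ Pr p B (fun F => s ≤ Y F ∧ Q F) := by
  classical
  set V : Finset ℝ := B.powerset.image Y with hV
  have hVne : V.Nonempty := ⟨Y ∅, Finset.mem_image.2 ⟨∅, Finset.empty_mem_powerset B, rfl⟩⟩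
  have hmem : ∀ F, F ⊆ B → Y F ∈ V := fun F hF =>
    Finset.mem_image.2 ⟨F, Finset.mem_powerset.2 hF, rfl⟩
  set W : Finset ℝ := V.filter (fun s => Pr p B Q / 2 ≤ Pr p B (fun F => Q F ∧ Y F ≤ s)) with hW
  have hQ0 : 0 ≤ Pr p B Q := Pr_nonneg hp B Q
  have hWne : W.Nonempty := by
    refine ⟨V.max' hVne, Finset.mem_filter.2 ⟨Finset.max'_mem V hVne, ?_⟩⟩
    have : Pr p B Q ≤ Pr p B (fun F => Q F ∧ Y F ≤ V.max' hVne) :=
      Pr_mono hp fun F hF hQ => ⟨hQ, Finset.le_max' V _ (hmem F hF)⟩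
    linarith
  refine ⟨W.min' hWne, (Finset.mem_filter.1 (Finset.min'_mem W hWne)).2, ?_⟩
  set s := W.min' hWne with hs
  have hsplit : Pr p B Q ≤ Pr p B (fun F => s ≤ Y F ∧ Q F) + Pr p B (fun F => Q F ∧ Y F < s) := by
    refine le_trans ?_ (Pr_or_le hp B _ _)
    refine Pr_mono hp fun F hF hQ => ?_
    rcases le_or_gt s (Y F) with h | h
    · exact Or.inl ⟨h, hQ⟩
    · exact Or.inr ⟨hQ, h⟩
  have hlt : Pr p B (fun F => Q F ∧ Y F < s) ≤ Pr p B Q / 2 := by
    by_cases hne : (V.filter (fun v => v < s)).Nonempty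
    · set s' := (V.filter (fun v => v < s)).max' hne with hs'
      have h1 := Finset.mem_filter.1 (Finset.max'_mem _ hne)
      have h2 : s' ∉ W := fun h => absurd (Finset.min'_le W s' h) (not_le.2 h1.2)
      have h3 : ¬ (Pr p B Q / 2 ≤ Pr p B (fun F => Q F ∧ Y F ≤ s')) := fun h =>
        h2 (Finset.mem_filter.2 ⟨h1.1, h⟩)
      refine le_trans (Pr_mono hp fun F hF h => ?_) (not_le.1 h3).le
      exact ⟨h.1, Finset.le_max' _ _ (Finset.mem_filter.2 ⟨hmem F hF, h.2⟩)⟩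
    · have h0 : Pr p B (fun F => Q F ∧ Y F < s) ≤ 0 := by
        have : Pr p B (fun F => Q F ∧ Y F < s) ≤ Pr p B (fun _ => False) :=
          Pr_mono hp fun F hF h => hne ⟨Y F, Finset.mem_filter.2 ⟨hmem F hF, h.2⟩⟩
        refine this.trans (le_of_eq ?_)
        unfold Pr
        rw [Ex_congr (g := fun _ => 0) (fun F _ => ind_not_of (fun h => h)), Ex_const]
      linarith
  linarith

end

theorem t_GAP : S_GAP := by
  intro E _ p hp B Yi Yo hYi hYo hYi0 hYo0 Q hQ hYQ δ β θ hδ hβ hθ hθβ hδβ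
  set Y : Finset E → ℝ := fun F => Yi F + Yo F with hY
  set x : ℝ := ‖CEx p B (fun F => ei (θ * Y F))‖ with hx
  have hx1 : x ≤ 1 := norm_cex_ei_le hp B _
  have hPβ : 0 ≤ Pr p B (fun F => β < Y F) := Pr_nonneg hp B _
  have hPQ : 0 ≤ Pr p B Q := Pr_nonneg hp B _
  have hc0 : 0 ≤ 11 / 48 * (θ * δ) ^ 2 := by positivity
  show x ≤ 1 - 11 / 48 * (θ * δ) ^ 2 * (1 / 4 * Pr p B Q * Pr p B (fun F => δ ≤ Yi F) -
    2 * Pr p B (fun F => β < Y F))
  rcases hPQ.eq_or_lt with h0 | hQpos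
  · rw [← h0]
    have : 0 ≤ 11 / 48 * (θ * δ) ^ 2 * (2 * Pr p B (fun F => β < Y F)) :=
      mul_nonneg hc0 (by linarith)
    nlinarith
  obtain ⟨s, hs1, hs2⟩ := exists_median hp B Yo Q
  have hA : IncrE B (fun F => s ≤ Yo F) := fun F G h1 h2 h3 => h3.trans (hYo F G h1 h2)
  have hD : IncrE B (fun F => δ ≤ Yi F) := fun F G h1 h2 h3 => h3.trans (hYi F G h1 h2)
  have h1 : (1 : ℝ) / 2 ≤ Pr p B (fun F => s ≤ Yo F) := by
    have := Pr_harris_decr hp hA hQ
    by_contra hcon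
    push Not at hcon
    nlinarith
  have h2 : Pr p B (fun F => δ ≤ Yi F) / 2 ≤ Pr p B (fun F => s + δ ≤ Y F) := by
    have h3 := Pr_harris hp hA hD
    have h4 : Pr p B (fun F => s ≤ Yo F ∧ δ ≤ Yi F) ≤ Pr p B (fun F => s + δ ≤ Y F) :=
      Pr_mono hp fun F hF h => by
        show s + δ ≤ Yi F + Yo F
        linarith [h.1, h.2]
    have h5 := Pr_nonneg hp B (fun F => δ ≤ Yi F)
    nlinarith
  have h3 : Pr p B Q / 2 ≤ Pr p B (fun F => Y F ≤ s) := by
    refine hs1.trans (Pr_mono hp fun F hF h => ?_)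
    show Yi F + Yo F ≤ s
    rw [hYQ F hF h.1]; linarith [h.2]
  -- the double expectation
  have h4 : 1 - x ^ 2 = Ex p B (fun F => Ex p B (fun G => 1 - Real.cos (θ * Y F - θ * Y G))) := by
    have e1 := normsq_cex p B (fun F => θ * Y F)
    have e2 : ∀ F, Ex p B (fun G => 1 - Real.cos (θ * Y F - θ * Y G)) =
        1 - Ex p B (fun G => Real.cos (θ * Y F - θ * Y G)) := by
      intro F
      rw [Ex_sub, Ex_const]
    simp only [e2]
    rw [Ex_sub, Ex_const, hx, e1]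
  have hY0 : ∀ F, F ⊆ B → 0 ≤ Y F := fun F hF => add_nonneg (hYi0 F hF) (hYo0 F hF)
  have h5 : ∀ F, F ⊆ B → ∀ G, G ⊆ B →
      11 / 24 * (θ * δ) ^ 2 * (ind (Y F ≤ s) * ind (s + δ ≤ Y G) + ind (s + δ ≤ Y F) * ind (Y G ≤ s)
        - ind (β < Y F) - ind (β < Y G)) ≤ 1 - Real.cos (θ * Y F - θ * Y G) := by
    intro F hF G hG
    have hcos : 0 ≤ 1 - Real.cos (θ * Y F - θ * Y G) := by linarith [Real.cos_le_one (θ * Y F - θ * Y G)]
    have hK : 0 ≤ 11 / 24 * (θ * δ) ^ 2 := by positivity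
    by_cases hb : β < Y F ∨ β < Y G
    · refine le_trans ?_ hcos
      apply mul_nonpos_of_nonneg_of_nonpos hK
      have i1 : ind (Y F ≤ s) * ind (s + δ ≤ Y G) + ind (s + δ ≤ Y F) * ind (Y G ≤ s) ≤ 1 := by
        by_cases g1 : Y F ≤ s
        · have g2 : ¬ (s + δ ≤ Y F) := by intro h; linarith
          rw [ind_of g1, ind_not_of g2]
          have := ind_le_one (s + δ ≤ Y G)
          linarith
        · rw [ind_not_of g1]
          have := ind_le_one (s + δ ≤ Y F)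
          have := ind_nonneg (s + δ ≤ Y F)
          have := ind_le_one (Y G ≤ s)
          have := ind_nonneg (Y G ≤ s)
          nlinarith
      have i2 := ind_nonneg (β < Y F)
      have i3 := ind_nonneg (β < Y G)
      rcases hb with hb | hb
      · rw [ind_of hb]; linarith
      · rw [ind_of hb]; linarith
    · push Not at hb
      rw [ind_not_of (not_lt.2 hb.1), ind_not_of (not_lt.2 hb.2)]
      have key : ∀ d : ℝ, |d| ≤ β → δ ≤ |d| → 11 / 24 * (θ * δ) ^ 2 ≤ 1 - Real.cos (θ * d) := by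
        intro d hd1 hd2
        have e1 : |θ * d| ≤ 1 := by
          rw [abs_mul, abs_of_nonneg hθ]
          exact (mul_le_mul_of_nonneg_left hd1 hθ).trans hθβ
        refine le_trans ?_ (one_sub_cos_ge e1)
        have e2 : (θ * δ) ^ 2 ≤ (θ * d) ^ 2 := by
          rw [mul_pow, mul_pow]
          apply mul_le_mul_of_nonneg_left _ (sq_nonneg θ)
          rw [← sq_abs d]
          exact pow_le_pow_left₀ hδ.le hd2 2
        linarith
      have hd : |Y F - Y G| ≤ β := by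
        rw [abs_le]; constructor <;> linarith [hY0 F hF, hY0 G hG]
      have hsub : θ * Y F - θ * Y G = θ * (Y F - Y G) := by ring
      by_cases g1 : Y F ≤ s ∧ s + δ ≤ Y G
      · have g2 : ¬ (s + δ ≤ Y F) := by intro h; linarith [g1.1]
        rw [ind_of g1.1, ind_of g1.2, ind_not_of g2, hsub]
        have := key (Y F - Y G) hd (by
          rw [abs_sub_comm]
          exact le_trans (by linarith [g1.1, g1.2]) (le_abs_self _))
        linarith
      by_cases g3 : s + δ ≤ Y F ∧ Y G ≤ s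
      · have g2 : ¬ (Y F ≤ s) := by intro h; linarith [g3.1]
        rw [ind_of g3.1, ind_of g3.2, ind_not_of g2, hsub]
        have := key (Y F - Y G) hd (by
          exact le_trans (by linarith [g3.1, g3.2]) (le_abs_self _))
        linarith
      have e1 : ind (Y F ≤ s) * ind (s + δ ≤ Y G) = 0 := by
        rw [← ind_and]; exact ind_not_of g1
      have e2 : ind (s + δ ≤ Y F) * ind (Y G ≤ s) = 0 := by
        rw [← ind_and]; exact ind_not_of g3
      rw [e1, e2]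
      linarith
  have h6 : 11 / 24 * (θ * δ) ^ 2 * (2 * (Pr p B (fun F => Y F ≤ s) * Pr p B (fun F => s + δ ≤ Y F))
      - 2 * Pr p B (fun F => β < Y F)) ≤ 1 - x ^ 2 := by
    rw [h4]
    have e1 : Ex p B (fun F => Ex p B (fun G => 11 / 24 * (θ * δ) ^ 2 * (ind (Y F ≤ s) * ind (s + δ ≤ Y G)
        + ind (s + δ ≤ Y F) * ind (Y G ≤ s) - ind (β < Y F) - ind (β < Y G)))) =
        11 / 24 * (θ * δ) ^ 2 * (2 * (Pr p B (fun F => Y F ≤ s) * Pr p B (fun F => s + δ ≤ Y F))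
      - 2 * Pr p B (fun F => β < Y F)) := by
      have e2 : ∀ F, Ex p B (fun G => 11 / 24 * (θ * δ) ^ 2 * (ind (Y F ≤ s) * ind (s + δ ≤ Y G)
        + ind (s + δ ≤ Y F) * ind (Y G ≤ s) - ind (β < Y F) - ind (β < Y G))) =
          11 / 24 * (θ * δ) ^ 2 * (ind (Y F ≤ s) * Pr p B (fun F => s + δ ≤ Y F)
            + ind (s + δ ≤ Y F) * Pr p B (fun F => Y F ≤ s) - ind (β < Y F)
              - Pr p B (fun F => β < Y F)) := by
        intro F
        unfold Pr
        rw [Ex_mul_left, Ex_sub, Ex_sub, Ex_add, Ex_mul_left, Ex_mul_left, Ex_const]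
      simp only [e2]
      rw [Ex_mul_left, Ex_sub, Ex_sub, Ex_add, Ex_mul_right, Ex_mul_right, Ex_const]
      unfold Pr
      ring
    rw [← e1]
    exact Ex_mono hp fun F hF => Ex_mono hp fun G hG => h5 F hF G hG
  have h7 : 1 / 4 * Pr p B Q * Pr p B (fun F => δ ≤ Yi F) ≤
      Pr p B (fun F => Y F ≤ s) * Pr p B (fun F => s + δ ≤ Y F) := by
    have i1 := Pr_nonneg hp B (fun F => δ ≤ Yi F)
    calc 1 / 4 * Pr p B Q * Pr p B (fun F => δ ≤ Yi F) =
        (Pr p B Q / 2) * (Pr p B (fun F => δ ≤ Yi F) / 2) := by ring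
      _ ≤ _ := mul_le_mul h3 h2 (by linarith) (Pr_nonneg hp B _)
  have h8 : 0 ≤ 1 / 4 * Pr p B Q * Pr p B (fun F => δ ≤ Yi F) := by
    have i1 := Pr_nonneg hp B (fun F => δ ≤ Yi F)
    positivity
  have h9 : 1 - x ≥ (1 - x ^ 2) / 2 := by nlinarith [sq_nonneg (1 - x)]
  have h10 : 11 / 24 * (θ * δ) ^ 2 * (1 / 4 * Pr p B Q * Pr p B (fun F => δ ≤ Yi F)
      - 2 * Pr p B (fun F => β < Y F)) ≤ 1 - x ^ 2 := by
    refine le_trans ?_ h6
    apply mul_le_mul_of_nonneg_left _ (by positivity)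
    linarith
  nlinarith

end Pool.Agent.Q14.FE
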