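import Pool.Agent.Q14.FE.BINT

/-!
Project FE (helper78), job FE-INV: Fourier inversion for an integer valued variable.
-/

set_option autoImplicit false
set_option linter.unusedVariables false

namespace Pool.Agent.Q14.FE

open Finset H974 Q78.FE

theorem cont_ei (c : ℝ) : Continuous fun θ : ℝ => ei (θ * c) := by
  unfold ei
  fun_prop

theorem int_ei (n : ℤ) : ∫ θ in (-Real.pi)..Real.pi, ei (θ * (n : ℝ)) =
    if n = 0 then ((2 * Real.pi : ℝ) : ℂ) else 0 := by
  by_cases hn : n = 0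
  · subst hn
    simp only [Int.cast_zero, mul_zero, if_true]
    have : ei 0 = 1 := by unfold ei; simp
    rw [this, intervalIntegral.integral_const]
    simp only [Complex.real_smul, mul_one]
    push_cast
    ring
  · rw [if_neg hn]
    have hc : ((n : ℂ) * Complex.I) ≠ 0 := mul_ne_zero (by exact_mod_cast hn) Complex.I_ne_zero
    have h1 : ∀ θ : ℝ, ei (θ * (n : ℝ)) = Complex.exp ((n : ℂ) * Complex.I * θ) := by
      intro θ
      unfold ei
      congr 1
      push_cast
      ring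
    simp only [h1]
    rw [integral_exp_mul_complex hc]
    have h2 : Complex.exp ((n : ℂ) * Complex.I * (Real.pi : ℂ)) =
        Complex.exp ((n : ℂ) * Complex.I * ((-Real.pi : ℝ) : ℂ)) := by
      have h3 := Complex.exp_periodic.int_mul n ((n : ℂ) * Complex.I * ((-Real.pi : ℝ) : ℂ))
      rw [← h3]
      congr 1
      push_cast
      ring
    rw [h2, sub_self, zero_div]

section
variable {E : Type*} [DecidableEq E]

/-- The characteristic function. -/
noncomputable def chf (p : E → ℝ) (U : Finset E) (g : Finset E → ℝ) (X : Finset E → ℕ)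
    (θ : ℝ) : ℂ := CEx p U (fun F => (g F : ℂ) * ei (θ * (X F : ℝ)))

theorem cont_chf (p : E → ℝ) (U : Finset E) (g : Finset E → ℝ) (X : Finset E → ℕ) :
    Continuous (chf p U g X) := by
  unfold chf CEx
  refine continuous_finsetSum _ fun F _ => ?_
  exact continuous_const.mul (continuous_const.mul (cont_ei _))

theorem inv_eq (p : E → ℝ) (U : Finset E) (g : Finset E → ℝ) (X : Finset E → ℕ) (k : ℕ) :
    ∫ θ in (-Real.pi)..Real.pi, chf p U g X θ * ei (θ * (-(k : ℝ))) =
      ((2 * Real.pi * Ex p U (fun F => g F * ind (X F = k)) : ℝ) : ℂ) := by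
  have h1 : ∀ θ : ℝ, chf p U g X θ * ei (θ * (-(k : ℝ))) = ∑ F ∈ U.powerset,
      ((((∏ e ∈ F, p e) * ∏ e ∈ U \ F, (1 - p e) : ℝ) : ℂ) * (g F : ℂ)) *
        ei (θ * (((X F : ℤ) - (k : ℤ) : ℤ) : ℝ)) := by
    intro θ
    unfold chf CEx
    rw [Finset.sum_mul]
    refine Finset.sum_congr rfl fun F _ => ?_
    have : θ * (((X F : ℤ) - (k : ℤ) : ℤ) : ℝ) = θ * (X F : ℝ) + θ * (-(k : ℝ)) := by
      push_cast; ring
    rw [this, ei_add]
    ring
  simp only [h1]
  rw [intervalIntegral.integral_finsetSum]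
  · have h2 : ∀ F, ∫ θ in (-Real.pi)..Real.pi,
        ((((∏ e ∈ F, p e) * ∏ e ∈ U \ F, (1 - p e) : ℝ) : ℂ) * (g F : ℂ)) *
        ei (θ * (((X F : ℤ) - (k : ℤ) : ℤ) : ℝ)) =
        ((((∏ e ∈ F, p e) * ∏ e ∈ U \ F, (1 - p e)) * (g F * ind (X F = k)) * (2 * Real.pi) : ℝ) : ℂ) := by
      intro F
      rw [intervalIntegral.integral_const_mul, int_ei]
      by_cases h : X F = k
      · rw [ind_of h, if_pos (by rw [h]; ring)]
        push_cast
        ring
      · rw [ind_not_of h, if_neg (by omega)]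
        push_cast
        ring
    simp only [h2]
    rw [← Complex.ofReal_sum]
    congr 1
    unfold Ex
    rw [Finset.mul_sum]
    refine Finset.sum_congr rfl fun F _ => ?_
    ring
  · intro F _
    exact (continuous_const.mul (cont_ei _)).intervalIntegrable _ _

end

/-- The real integral. -/
theorem int_G {M : ℝ} (hM : 1 ≤ M) : ∫ θ in (-Real.pi)..Real.pi, (1 / (1 + |θ| * M) ^ 2 : ℝ) ≤ 2 / M := by
  have hM0 : 0 < M := by linarith
  have hcont : Continuous fun θ : ℝ => (1 / (1 + |θ| * M) ^ 2 : ℝ) := by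
    apply Continuous.div continuous_const (by fun_prop)
    intro θ
    have : 0 < 1 + |θ| * M := by positivity
    positivity
  have hhalf : ∫ θ in (0 : ℝ)..Real.pi, (1 / (1 + |θ| * M) ^ 2 : ℝ) ≤ 1 / M := by
    have h1 : ∫ θ in (0 : ℝ)..Real.pi, (1 / (1 + |θ| * M) ^ 2 : ℝ) =
        ∫ θ in (0 : ℝ)..Real.pi, (1 / (1 + θ * M) ^ 2 : ℝ) := by
      refine intervalIntegral.integral_congr fun θ hθ => ?_
      rw [Set.uIcc_of_le Real.pi_pos.le] at hθ
      simp only [abs_of_nonneg hθ.1]
    rw [h1]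
    have h2 : ∫ θ in (0 : ℝ)..Real.pi, (1 / (1 + θ * M) ^ 2 : ℝ) =
        -(1 / (M * (1 + Real.pi * M))) - -(1 / (M * (1 + 0 * M))) := by
      refine intervalIntegral.integral_eq_sub_of_hasDerivAt
        (f := fun θ => -(1 / (M * (1 + θ * M)))) (fun θ hθ => ?_) ?_
      · rw [Set.uIcc_of_le Real.pi_pos.le] at hθ
        have hpos : 0 < 1 + θ * M := by nlinarith [hθ.1]
        have h3 : HasDerivAt (fun θ : ℝ => M * (1 + θ * M)) (M * M) θ := by
          have := ((hasDerivAt_id θ).mul_const M).const_add 1 |>.const_mul M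
          simpa using this
        have h4 := (h3.inv (mul_pos hM0 hpos).ne').neg
        refine (h4.congr_deriv ?_).congr_of_eventuallyEq ?_
        · field_simp
        · refine Filter.Eventually.of_forall fun x => ?_
          simp [one_div]
      · refine ContinuousOn.intervalIntegrable ?_
        rw [Set.uIcc_of_le Real.pi_pos.le]
        apply ContinuousOn.div continuousOn_const (by fun_prop)
        intro θ hθ
        have hpos : 0 < 1 + θ * M := by nlinarith [hθ.1]
        positivity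
    rw [h2]
    have h5 : 0 ≤ 1 / (M * (1 + Real.pi * M)) := by
      have := Real.pi_pos
      positivity
    have h6 : 1 / (M * (1 + 0 * M)) = 1 / M := by
      rw [zero_mul, add_zero, mul_one]
    rw [h6]
    linarith
  have hneg : ∫ θ in (-Real.pi)..(0 : ℝ), (1 / (1 + |θ| * M) ^ 2 : ℝ) =
      ∫ θ in (0 : ℝ)..Real.pi, (1 / (1 + |θ| * M) ^ 2 : ℝ) := by
    have h1 := intervalIntegral.integral_comp_neg (a := 0) (b := Real.pi)
      (fun θ : ℝ => (1 / (1 + |θ| * M) ^ 2 : ℝ))
    simp only [abs_neg, neg_zero] at h1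
    exact h1.symm
  rw [← intervalIntegral.integral_add_adjacent_intervals (b := 0)
    (hcont.intervalIntegrable _ _) (hcont.intervalIntegrable _ _), hneg]
  have : 2 / M = 1 / M + 1 / M := by ring
  rw [this]
  linarith

theorem norm_ei_sub_one (θ : ℝ) : ‖ei (-θ) - 1‖ ≤ |θ| := by
  unfold ei
  have h := Real.norm_exp_I_mul_ofReal_sub_one_le (x := -θ)
  rw [mul_comm] at h
  refine h.trans (le_of_eq ?_)
  rw [norm_neg, Real.norm_eq_abs]

/-- The main estimate. -/
theorem inv_bound {f : ℝ → ℂ} {A M D : ℝ} (hA : 0 ≤ A) (hM : 1 ≤ M)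
    (hf : ∀ θ : ℝ, |θ| ≤ Real.pi → ‖f θ‖ ≤ A / (1 + |θ| * M) ^ 6) (hc : Continuous f)
    (k j : ℕ) (hj : j ≤ 2)
    (hD : ∫ θ in (-Real.pi)..Real.pi, f θ * (ei (θ * (-(k : ℝ))) * (ei (-θ) - 1) ^ j) =
      ((2 * Real.pi * D : ℝ) : ℂ)) : |D| ≤ A / M ^ (j + 1) := by
  have hM0 : 0 < M := by linarith
  have hpi := Real.pi_pos
  have hcont1 : Continuous fun θ : ℝ => f θ * (ei (θ * (-(k : ℝ))) * (ei (-θ) - 1) ^ j) := by
    refine hc.mul ((cont_ei _).mul (((?_ : Continuous fun θ : ℝ => ei (-θ)).sub continuous_const).pow j))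
    have := cont_ei (-1)
    simpa using this
  have hcontG : Continuous fun θ : ℝ => (1 / (1 + |θ| * M) ^ 2 : ℝ) := by
    apply Continuous.div continuous_const (by fun_prop)
    intro θ
    have : 0 < 1 + |θ| * M := by positivity
    positivity
  have h1 : ‖∫ θ in (-Real.pi)..Real.pi, f θ * (ei (θ * (-(k : ℝ))) * (ei (-θ) - 1) ^ j)‖ ≤
      ∫ θ in (-Real.pi)..Real.pi, (A / M ^ j * (1 / (1 + |θ| * M) ^ 2) : ℝ) := by
    refine (intervalIntegral.norm_integral_le_integral_norm (by linarith)).trans ?_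
    refine intervalIntegral.integral_mono_on (by linarith) (hcont1.norm.intervalIntegrable _ _)
      ((continuous_const.mul hcontG).intervalIntegrable _ _) fun θ hθ => ?_
    have hθ' : |θ| ≤ Real.pi := abs_le.2 ⟨by linarith [hθ.1], by linarith [hθ.2]⟩
    rw [norm_mul, norm_mul, norm_pow, norm_ei, one_mul]
    set t := |θ| with ht
    have ht0 : 0 ≤ t := abs_nonneg θ
    have hw : 0 < 1 + t * M := by positivity
    have e1 : ‖ei (-θ) - 1‖ ^ j ≤ t ^ j := pow_le_pow_left₀ (norm_nonneg _) (norm_ei_sub_one θ) j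
    refine (mul_le_mul (hf θ hθ') e1 (by positivity) (by positivity)).trans ?_
    rw [div_mul_div_comm, mul_one, div_mul_eq_mul_div, div_le_div_iff₀ (by positivity) (by positivity)]
    have e2 : t ^ j * M ^ j ≤ (1 + t * M) ^ 4 := by
      rw [← mul_pow]
      calc (t * M) ^ j ≤ (1 + t * M) ^ j := pow_le_pow_left₀ (by positivity) (by linarith) j
        _ ≤ (1 + t * M) ^ 4 := pow_le_pow_right₀ (by nlinarith [mul_nonneg ht0 hM0.le]) (by omega)
    calc A * t ^ j * (M ^ j * (1 + t * M) ^ 2) = A * (t ^ j * M ^ j) * (1 + t * M) ^ 2 := by ring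
      _ ≤ A * (1 + t * M) ^ 4 * (1 + t * M) ^ 2 := by gcongr
      _ = A * (1 + t * M) ^ 6 := by ring
  rw [hD, Complex.norm_real, Real.norm_eq_abs, abs_mul, abs_of_pos (by positivity : 0 < 2 * Real.pi),
    intervalIntegral.integral_const_mul] at h1
  have h2 := int_G hM
  have h3 : 0 ≤ A / M ^ j := by positivity
  have h4 : 2 * Real.pi * |D| ≤ A / M ^ j * (2 / M) := h1.trans (mul_le_mul_of_nonneg_left h2 h3)
  have h5 : A / M ^ j * (2 / M) = 2 * (A / M ^ (j + 1)) := by
    rw [pow_succ]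
    field_simp
  rw [h5] at h4
  have h6 := Real.two_le_pi
  have h7 := abs_nonneg D
  nlinarith

theorem t_INV : S_INV := by
  intro E _ p hp U g X A M hA hM hφ k
  have hc := cont_chf p U g X
  have hpi := Real.pi_pos
  have hcI : ∀ c : ℝ, IntervalIntegrable (fun θ : ℝ => chf p U g X θ * ei (θ * c))
      MeasureTheory.volume (-Real.pi) Real.pi := fun c => (hc.mul (cont_ei c)).intervalIntegrable _ _
  have hei : ∀ θ : ℝ, ei (θ * (-((k + 1 : ℕ) : ℝ))) = ei (θ * (-(k : ℝ))) * ei (-θ) := by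
    intro θ
    rw [← ei_add]
    congr 1
    push_cast
    ring
  have hei2 : ∀ θ : ℝ, ei (θ * (-((k + 2 : ℕ) : ℝ))) = ei (θ * (-(k : ℝ))) * ei (-θ) ^ 2 := by
    intro θ
    rw [sq, ← ei_add, ← ei_add]
    congr 1
    push_cast
    ring
  refine ⟨?_, ?_, ?_⟩
  · have := inv_bound hA hM hφ hc k 0 (by omega) (D := Ex p U (fun F => g F * ind (X F = k))) (by
      simp only [pow_zero, mul_one]
      exact inv_eq p U g X k)
    simpa using this
  · refine inv_bound hA hM hφ hc k 1 (by omega) (D := Ex p U (fun F => g F * ind (X F = k + 1)) -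
      Ex p U (fun F => g F * ind (X F = k))) ?_
    have h1 : ∀ θ : ℝ, chf p U g X θ * (ei (θ * (-(k : ℝ))) * (ei (-θ) - 1) ^ 1) =
        chf p U g X θ * ei (θ * (-((k + 1 : ℕ) : ℝ))) - chf p U g X θ * ei (θ * (-(k : ℝ))) := by
      intro θ
      rw [hei]
      ring
    simp only [show ∀ θ : ℝ, CEx p U (fun F => (g F : ℂ) * ei (θ * (X F : ℝ))) = chf p U g X θ
      from fun θ => rfl, h1]
    rw [intervalIntegral.integral_sub (hcI _) (hcI _), inv_eq, inv_eq]
    push_cast
    ring
  · refine inv_bound hA hM hφ hc k 2 (by omega) (D := Ex p U (fun F => g F * ind (X F = k + 2)) -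
      2 * Ex p U (fun F => g F * ind (X F = k + 1)) + Ex p U (fun F => g F * ind (X F = k))) ?_
    have h1 : ∀ θ : ℝ, chf p U g X θ * (ei (θ * (-(k : ℝ))) * (ei (-θ) - 1) ^ 2) =
        chf p U g X θ * ei (θ * (-((k + 2 : ℕ) : ℝ))) -
          2 * (chf p U g X θ * ei (θ * (-((k + 1 : ℕ) : ℝ)))) +
          chf p U g X θ * ei (θ * (-(k : ℝ))) := by
      intro θ
      rw [hei, hei2]
      ring
    simp only [show ∀ θ : ℝ, CEx p U (fun F => (g F : ℂ) * ei (θ * (X F : ℝ))) = chf p U g X θ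
      from fun θ => rfl, h1]
    rw [intervalIntegral.integral_add ((hcI _).sub ((hcI _).const_mul 2)) (hcI _),
      intervalIntegral.integral_sub (hcI _) ((hcI _).const_mul 2),
      intervalIntegral.integral_const_mul, inv_eq, inv_eq, inv_eq]
    push_cast
    ring

end Pool.Agent.Q14.FE
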