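import Pool.Agent.Q78.FE.Stm

/-!
Project FE (helper78), jobs FE-R1, FE-R2: two real lemmas.
-/

set_option autoImplicit false
set_option linter.unusedVariables false

namespace Pool.Agent.Q14.FE

open Finset H974 Q78.FE

/-- if `f j ≥ x - j Λ` then the first `J + 1` values are at least `x / 2` when `J Λ ≤ x / 2` -/
theorem low_sum {f : ℕ → ℝ} {x Λ : ℝ} (hΛ : 0 ≤ Λ) {J : ℕ} (hf : ∀ j, j ≤ J → x - j * Λ ≤ f j)
    (hJ : (J : ℝ) * Λ ≤ x / 2) : (J + 1) * (x / 2) ≤ ∑ j ∈ range (J + 1), f j := by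
  have h1 : ∑ j ∈ range (J + 1), (x / 2) ≤ ∑ j ∈ range (J + 1), f j := by
    refine Finset.sum_le_sum fun j hj => ?_
    have h2 : j ≤ J := by
      rw [Finset.mem_range] at hj
      omega
    have h3 : (j : ℝ) * Λ ≤ J * Λ := mul_le_mul_of_nonneg_right (by exact_mod_cast h2) hΛ
    linarith [hf j h2]
  rw [Finset.sum_const, Finset.card_range, nsmul_eq_mul] at h1
  push_cast at h1
  exact h1

/-- the choice of `J` -/
theorem dich {f : ℕ → ℝ} {x Λ T : ℝ} {N : ℕ} (hx : 0 ≤ x) (hΛ : 0 ≤ Λ)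
    (hf : ∀ j, j ≤ N → x - j * Λ ≤ f j)
    (hT : ∀ J, J ≤ N → ∑ j ∈ range (J + 1), f j ≤ T) :
    x ^ 2 ≤ 4 * Λ * T ∨ (N + 1) * (x / 2) ≤ T := by
  by_cases h : (N : ℝ) * Λ ≤ x / 2
  · exact Or.inr ((low_sum hΛ hf h).trans (hT N le_rfl))
  · left
    push Not at h
    have hΛ' : 0 < Λ := by
      rcases hΛ.lt_or_eq with h1 | h1
      · exact h1
      · rw [← h1, mul_zero] at h
        linarith
    set J := ⌊x / 2 / Λ⌋₊ with hJdef
    have hJ1 : (J : ℝ) ≤ x / 2 / Λ := Nat.floor_le (by positivity)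
    have hJ2 : x / 2 / Λ < J + 1 := Nat.lt_floor_add_one _
    have hJ3 : (J : ℝ) * Λ ≤ x / 2 := by rwa [le_div_iff₀ hΛ'] at hJ1
    have hJN : J ≤ N := by
      have h2 : (J : ℝ) < N := by
        by_contra h3
        push Not at h3
        have := mul_le_mul_of_nonneg_right h3 hΛ
        linarith
      exact_mod_cast h2.le
    have h4 := (low_sum hΛ (fun j hj => hf j (hj.trans hJN)) hJ3).trans (hT J hJN)
    have h5 : x / 2 < (J + 1) * Λ := by rwa [div_lt_iff₀ hΛ'] at hJ2
    have h6 : (x / 2) * (x / 2) ≤ ((J + 1) * Λ) * (x / 2) :=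
      mul_le_mul_of_nonneg_right h5.le (by linarith)
    have h7 : Λ * ((J + 1) * (x / 2)) ≤ Λ * T := mul_le_mul_of_nonneg_left h4 hΛ
    nlinarith

theorem t_R1 : S_R1 := by
  intro h Λ T N hN h0 hΛ hd hT
  have hdn : ∀ j, j ≤ N → h N - j * Λ ≤ h (N - j) := by
    intro j
    induction j with
    | zero =>
      intro _
      simp
    | succ j ih =>
      intro hj
      have h1 := ih (by omega)
      have h2 := hd (N - (j + 1))
      have h3 : N - (j + 1) + 1 = N - j := by omega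
      rw [h3] at h2
      have h4 := (abs_le.1 h2).2
      push_cast
      linarith
  have hsub : ∀ J, J ≤ N / 2 → ∑ j ∈ range (J + 1), h (N - j) ≤ T := by
    intro J hJ
    refine le_trans ?_ hT
    have e : ∑ j ∈ range (J + 1), h (N - j) =
        ∑ k ∈ (range (J + 1)).image (fun j => N - j), h k := by
      rw [Finset.sum_image]
      intro a ha b hb hab
      rw [Finset.mem_coe, Finset.mem_range] at ha hb
      have hab' : N - a = N - b := hab
      omega
    rw [e]
    refine Finset.sum_le_sum_of_subset_of_nonneg ?_ fun k _ _ => h0 k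
    intro k hk
    rw [Finset.mem_image] at hk
    obtain ⟨j, hj, rfl⟩ := hk
    rw [Finset.mem_range] at hj
    rw [Finset.mem_filter, Finset.mem_range]
    omega
  rcases dich (f := fun j => h (N - j)) (N := N / 2) (h0 N) hΛ
    (fun j hj => hdn j (by omega)) hsub with h1 | h1
  · exact Or.inl h1
  · right
    have hNpos : (0 : ℝ) < N := by exact_mod_cast hN
    rw [le_div_iff₀ hNpos]
    have h2 : (N : ℝ) ≤ 2 * (((N / 2 : ℕ) : ℝ) + 1) := by
      have : N ≤ 2 * (N / 2 + 1) := by omega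
      exact_mod_cast this
    have h3 : h N * N ≤ h N * (2 * (((N / 2 : ℕ) : ℝ) + 1)) :=
      mul_le_mul_of_nonneg_left h2 (h0 N)
    nlinarith

/-- the case of a nonnegative difference -/
theorem R2_pos (h : ℕ → ℝ) (Λ S : ℝ) (N : ℕ) (hN : 1 ≤ N) (hΛ : 0 ≤ Λ)
    (h1 : ∀ k, N ≤ k → k ≤ 2 * N + 1 → 0 ≤ h k ∧ h k ≤ S)
    (h2 : ∀ k, |h (k + 2) - 2 * h (k + 1) + h k| ≤ Λ) (hD : 0 ≤ h (N + 1) - h N) :
    (h (N + 1) - h N) ^ 2 ≤ 4 * Λ * S ∨ |h (N + 1) - h N| ≤ 2 * S / N := by
  have hd : ∀ j : ℕ, (h (N + 1) - h N) - j * Λ ≤ h (N + j + 1) - h (N + j) := by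
    intro j
    induction j with
    | zero => simp
    | succ j ih =>
      have h3 := (abs_le.1 (h2 (N + j))).1
      have e1 : N + (j + 1) + 1 = N + j + 2 := by ring
      have e2 : N + (j + 1) = N + j + 1 := by ring
      rw [e1, e2]
      push_cast
      linarith
  have hs : ∀ J, J ≤ N → ∑ j ∈ range (J + 1), (h (N + j + 1) - h (N + j)) ≤ S := by
    intro J hJ
    have e : ∑ j ∈ range (J + 1), (h (N + j + 1) - h (N + j)) = h (N + (J + 1)) - h N := by
      have := Finset.sum_range_sub (fun j => h (N + j)) (J + 1)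
      simpa [add_assoc] using this
    rw [e]
    have h3 := (h1 (N + (J + 1)) (by omega) (by omega)).2
    have h4 := (h1 N le_rfl (by omega)).1
    linarith
  rcases dich (f := fun j => h (N + j + 1) - h (N + j)) (N := N) hD hΛ (fun j _ => hd j) hs
    with h3 | h3
  · exact Or.inl h3
  · right
    have hNpos : (0 : ℝ) < N := by exact_mod_cast hN
    rw [abs_of_nonneg hD, le_div_iff₀ hNpos]
    nlinarith

theorem t_R2 : S_R2 := by
  intro h Λ S N hN hΛ h1 h2
  rcases le_total 0 (h (N + 1) - h N) with hD | hD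
  · exact R2_pos h Λ S N hN hΛ h1 h2 hD
  · have h3 := R2_pos (fun k => S - h k) Λ S N hN hΛ
      (fun k hk1 hk2 => ⟨by linarith [(h1 k hk1 hk2).2], by linarith [(h1 k hk1 hk2).1]⟩)
      (fun k => by
        have e : (S - h (k + 2)) - 2 * (S - h (k + 1)) + (S - h k) =
            -(h (k + 2) - 2 * h (k + 1) + h k) := by ring
        show |(S - h (k + 2)) - 2 * (S - h (k + 1)) + (S - h k)| ≤ Λ
        rw [e, abs_neg]
        exact h2 k)
      (by
        show 0 ≤ (S - h (N + 1)) - (S - h N)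
        linarith)
    have e : (S - h (N + 1)) - (S - h N) = -(h (N + 1) - h N) := by ring
    have h4 : ((S - h (N + 1)) - (S - h N)) ^ 2 ≤ 4 * Λ * S ∨
      |(S - h (N + 1)) - (S - h N)| ≤ 2 * S / N := h3
    rw [e, neg_sq, abs_neg] at h4
    exact h4

end Pool.Agent.Q14.FE
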